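import Mathlib
import Pool.Agent.X45.CircMain

set_option autoImplicit false

namespace Pool.Agent.Results.MP_b6cdd3_co.LinearNotCircular

open Finset Pool.Agent.X45.CircMain

/-- A linearly ordered graph, up to isomorphism: a graph on `{0, …, m-1}` with its usual order. -/
abbrev LinGraph : Type := Σ m : ℕ, SimpleGraph (Fin m)

/-- The linearly ordered graph `H` is isomorphic to an induced ordered subgraph of `G` with the
linear ordering given by the enumeration `c` of the vertex set. -/
def OccursLin (H : LinGraph) {V : Type} [Fintype V] (G : SimpleGraph V)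
    (c : V ≃ Fin (Fintype.card V)) : Prop :=
  ∃ φ : Fin H.1 → V, (∀ i j, i < j → c (φ i) < c (φ j)) ∧
    ∀ u v, H.2.Adj u v ↔ G.Adj (φ u) (φ v)

/-- `G` admits an `F`-free linear ordering. -/
def FreeLin (F : Set LinGraph) {V : Type} [Fintype V] (G : SimpleGraph V) : Prop :=
  ∃ c : V ≃ Fin (Fintype.card V), ∀ H ∈ F, ¬ OccursLin H G c

/-- A class of finite graphs. -/
abbrev GraphClass : Type 1 := ∀ (V : Type) [Fintype V], SimpleGraph V → Prop

/-- Closed under isomorphism and induced subgraphs. -/
def Hereditary (C : GraphClass) : Prop :=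
  ∀ (V W : Type) [Fintype V] [Fintype W] (G : SimpleGraph V) (H : SimpleGraph W),
    Nonempty (H ↪g G) → C V G → C W H

/-- Described by finitely many forbidden linearly ordered graphs. -/
def FinLin (C : GraphClass) : Prop :=
  ∃ F : Set LinGraph, F.Finite ∧ ∀ (V : Type) [Fintype V] (G : SimpleGraph V),
    C V G ↔ FreeLin F G

/-- Described by finitely many forbidden circularly ordered graphs. -/
def FinCirc (C : GraphClass) : Prop :=
  ∃ F : Set CircGraph, F.Finite ∧ ∀ (V : Type) [Fintype V] (G : SimpleGraph V),
    C V G ↔ FreeCirc F G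

/-- The ordered graphs on `k + 1` vertices containing the increasing path. -/
def pathSet (k : ℕ) : Set LinGraph :=
  (fun H : SimpleGraph (Fin (k + 1)) => (⟨k + 1, H⟩ : LinGraph)) ''
    {H | ∀ i : Fin k, H.Adj i.castSucc i.succ}

/-- Gallai, Hasse, Roy, Vitaver. -/
theorem colorable_iff (k : ℕ) (V : Type) [Fintype V] (G : SimpleGraph V) :
    G.Colorable k ↔ FreeLin (pathSet k) G := by
  classical
  constructor
  · rintro ⟨C⟩
    -- order by the colour
    have hkey : Function.Injective (fun v : V =>
        (C v : ℕ) * (Fintype.card V) + (Fintype.equivFin V v : ℕ)) := by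
      intro u v h
      simp only at h
      have h1 := (Fintype.equivFin V u).2
      have h2 := (Fintype.equivFin V v).2
      have h3 : (C u : ℕ) = C v := by
        rcases Nat.lt_trichotomy (C u : ℕ) (C v) with h' | h' | h'
        · have : ((C u : ℕ) + 1) * Fintype.card V ≤ (C v : ℕ) * Fintype.card V :=
            Nat.mul_le_mul_right _ h'
          nlinarith
        · exact h'
        · have : ((C v : ℕ) + 1) * Fintype.card V ≤ (C u : ℕ) * Fintype.card V :=
            Nat.mul_le_mul_right _ h'
          nlinarith
      rw [h3] at h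
      exact (Fintype.equivFin V).injective (Fin.ext (by omega))
    letI : LinearOrder V := LinearOrder.lift' _ hkey
    let e := (Fintype.orderIsoFinOfCardEq V rfl).symm
    have he : ∀ u v, e u < e v → (C u : ℕ) ≤ C v := by
      intro u v huv
      have h1 : u < v := e.lt_iff_lt.1 huv
      have h2 : (C u : ℕ) * (Fintype.card V) + (Fintype.equivFin V u : ℕ) <
        (C v : ℕ) * (Fintype.card V) + (Fintype.equivFin V v : ℕ) := h1
      by_contra hcon
      push Not at hcon
      have h3 : ((C v : ℕ) + 1) * Fintype.card V ≤ (C u : ℕ) * Fintype.card V :=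
        Nat.mul_le_mul_right _ hcon
      have h4 := (Fintype.equivFin V v).2
      nlinarith
    refine ⟨e.toEquiv, ?_⟩
    rintro _ ⟨H, hH, rfl⟩ ⟨φ, hφ, hadj⟩
    have hmono : StrictMono (fun i : Fin (k + 1) => C (φ i)) := by
      rw [Fin.strictMono_iff_lt_succ]
      intro i
      have h1 : (C (φ i.castSucc) : ℕ) ≤ C (φ i.succ) :=
        he _ _ (hφ _ _ (Fin.castSucc_lt_succ))
      have h2 : G.Adj (φ i.castSucc) (φ i.succ) := (hadj _ _).1 (hH i)
      exact lt_of_le_of_ne h1 (C.valid h2)
    have := Fintype.card_le_of_injective _ hmono.injective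
    rw [Fintype.card_fin, Fintype.card_fin] at this
    omega
  · rintro ⟨c, hc⟩
    -- longest increasing path ending at `v`
    let P : V → ℕ → Prop := fun v t => ∃ φ : ℕ → V,
      (∀ i < t, c (φ i) < c (φ (i + 1)) ∧ G.Adj (φ i) (φ (i + 1))) ∧ φ t = v
    have hP0 : ∀ v, P v 0 := fun v => ⟨fun _ => v, fun i hi => absurd hi (by omega), rfl⟩
    have hPk : ∀ v t, P v t → t < k := by
      rintro v t ⟨φ, hφ, -⟩
      by_contra hcon
      push Not at hcon
      let ψ : Fin (k + 1) → V := fun i => φ (t - k + i)
      apply hc ⟨k + 1, G.comap ψ⟩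
      · refine ⟨G.comap ψ, ?_, rfl⟩
        intro i
        have := (hφ (t - k + i) (by have := i.2; omega)).2
        exact this
      · refine ⟨ψ, ?_, fun u v => Iff.rfl⟩
        have : StrictMono (fun i : Fin (k + 1) => c (ψ i)) := by
          rw [Fin.strictMono_iff_lt_succ]
          intro i
          exact (hφ (t - k + i) (by have := i.2; omega)).1
        exact fun i j hij => this hij
    let f : V → ℕ := fun v => Nat.findGreatest (P v) k
    have hf : ∀ v, P v (f v) := fun v => Nat.findGreatest_spec (Nat.zero_le k) (hP0 v)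
    have hstep : ∀ u v, c u < c v → G.Adj u v → f u < f v := by
      intro u v huv hadj
      obtain ⟨φ, hφ, hφu⟩ := hf u
      have h1 : P v (f u + 1) := by
        refine ⟨fun i => if i ≤ f u then φ i else v, ?_, ?_⟩
        · intro i hi
          rcases Nat.lt_or_ge i (f u) with h | h
          · simp only [if_pos h.le, if_pos (Nat.succ_le_of_lt h)]
            exact hφ i h
          · have : i = f u := by omega
            subst this
            simp only [if_pos le_rfl, if_neg (Nat.not_succ_le_self _)]
            rw [hφu]
            exact ⟨huv, hadj⟩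
        · simp only [if_neg (Nat.not_succ_le_self _)]
      have h2 := hPk v _ h1
      exact Nat.le_findGreatest h2.le h1
    refine ⟨SimpleGraph.Coloring.mk (fun v => (⟨f v, hPk v _ (hf v)⟩ : Fin k)) ?_⟩
    intro u v huv h
    have h1 : f u = f v := Fin.mk.inj_iff.1 h
    rcases lt_trichotomy (c u) (c v) with h2 | h2 | h2
    · exact absurd (hstep u v h2 huv) (by rw [h1]; exact lt_irrefl _)
    · exact huv.ne (c.injective h2)
    · exact absurd (hstep v u h2 huv.symm) (by rw [h1]; exact lt_irrefl _)

/-- **Result.** For every `k ≥ 2` the class of the `k`-colourable graphs is a hereditary graph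
property that is described by finitely many forbidden linearly ordered graphs, and not by any
finite set of forbidden circularly ordered graphs. -/
theorem result (k : ℕ) (hk : 2 ≤ k) :
    Hereditary (fun _ _ G => G.Colorable k) ∧ FinLin (fun _ _ G => G.Colorable k) ∧
      ¬ FinCirc (fun _ _ G => G.Colorable k) := by
  refine ⟨?_, ⟨pathSet k, (Set.toFinite _).image _, fun V _ G => colorable_iff k V G⟩, ?_⟩
  · rintro V W _ _ G H ⟨f⟩ hG
    exact hG.of_hom f.toHom
  · rintro ⟨F, hF, h⟩
    exact not_describes k hk F hF (fun V _ G => (h V G).symm)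

end Pool.Agent.Results.MP_b6cdd3_co.LinearNotCircular
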